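import Pool.Agent.W558.WD.Stms

set_option autoImplicit false
set_option linter.all false

/-! Project WILD (helper558): bases of the logarithmic derivations. -/

universe u

open Polynomial

namespace Pool.Agent.W337.WD

open Pool.Agent.W558

variable {k E : Type u} [Field k] [Field E] [Algebra k E]

theorem self_uo (O : Subalgebra k E) (e : E) : e ∈ uo O e :=
  ⟨1, O.one_mem, one_ne_zero, by rw [inv_one]; exact O.one_mem, (one_mul e).symm⟩

/-- logarithmic derivations for one component -/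
theorem th_one {O : Subalgebra k E} {e : E} {θ : Derivation k E E} :
    θ ∈ Th O (uo O e) ↔ (∀ a ∈ O, θ a ∈ O) ∧ ∃ c ∈ O, θ e = c * e := by
  constructor
  · rintro ⟨h1, h2⟩
    exact ⟨h1, h2 e (self_uo O e)⟩
  · rintro ⟨h1, c, hc, h2⟩
    refine ⟨h1, ?_⟩
    rintro z ⟨w, hw, hw0, hwi, rfl⟩
    refine ⟨c + θ w * w⁻¹, O.add_mem hc (O.mul_mem (h1 w hw) hwi), ?_⟩
    rw [Derivation.leibniz, h2, smul_eq_mul, smul_eq_mul]
    field_simp

theorem th_union {O : Subalgebra k E} {b b' : Set E} {θ : Derivation k E E} :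
    θ ∈ Th O (b ∪ b') ↔ θ ∈ Th O b ∧ θ ∈ Th O b' := by
  constructor
  · rintro ⟨h1, h2⟩
    exact ⟨⟨h1, fun z hz => h2 z (Or.inl hz)⟩, ⟨h1, fun z hz => h2 z (Or.inr hz)⟩⟩
  · rintro ⟨⟨h1, h2⟩, ⟨-, h3⟩⟩
    exact ⟨h1, fun z hz => hz.elim (h2 z) (h3 z)⟩

/-- derivations which preserve the local ring of a point of the blowup -/
theorem pres {O O' : Subalgebra k E} {e : E} (h : Quad O e O') (D : Derivation k E E)
    (h1 : ∀ a ∈ O, D a ∈ O') (h2 : ∀ z, NU O z → D (z * e⁻¹) ∈ O') : ∀ a ∈ O', D a ∈ O' := by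
  have hB : BB O e ≤ O' := by
    unfold BB
    refine Algebra.adjoin_le ?_
    rintro z (hz | ⟨y, hy, rfl⟩)
    · exact h.le hz
    · exact h.div y hy
  have hD : ∀ a ∈ BB O e, D a ∈ O' := by
    intro a ha
    unfold BB at ha
    induction ha using Algebra.adjoin_induction with
    | mem z hz =>
      rcases hz with hz | ⟨y, hy, rfl⟩
      · exact h1 z hz
      · exact h2 y hy
    | algebraMap r => rw [Derivation.map_algebraMap]; exact O'.zero_mem
    | add x y _ _ hx hy => rw [map_add]; exact O'.add_mem hx hy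
    | mul x y hx' hy' hx hy =>
      rw [Derivation.leibniz, smul_eq_mul, smul_eq_mul]
      exact O'.add_mem (O'.mul_mem (hB hx') hy) (O'.mul_mem (hB hy') hx)
  intro a ha
  obtain ⟨p, hp, q, hq, hq0, hqi, rfl⟩ := h.frac a ha
  rw [Derivation.leibniz, Derivation.leibniz_inv, smul_eq_mul, smul_eq_mul, smul_eq_mul]
  refine O'.add_mem (O'.mul_mem (hB hp) (O'.mul_mem (O'.neg_mem (O'.pow_mem hqi 2)) (hD q hq)))
    (O'.mul_mem hqi (hD p hp))

theorem th_comb {O : Subalgebra k E} {b : Set E} {D D' : Derivation k E E} {α β : E}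
    (hα : α ∈ O) (hβ : β ∈ O) (h : D ∈ Th O b) (h' : D' ∈ Th O b) :
    α • D + β • D' ∈ Th O b := by
  refine ⟨fun a ha => ?_, fun z hz => ?_⟩
  · simp only [Derivation.add_apply, Derivation.smul_apply, smul_eq_mul]
    exact O.add_mem (O.mul_mem hα (h.1 a ha)) (O.mul_mem hβ (h'.1 a ha))
  · obtain ⟨w, hw, h1⟩ := h.2 z hz
    obtain ⟨w', hw', h2⟩ := h'.2 z hz
    refine ⟨α * w + β * w', O.add_mem (O.mul_mem hα hw) (O.mul_mem hβ hw'), ?_⟩
    simp only [Derivation.add_apply, Derivation.smul_apply, smul_eq_mul]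
    rw [h1, h2]
    ring

theorem main : WD_thb.{u} := by
  intro k E _ _ _ _ _ O x y D1 D2 _ hpar hD1 hD2 h1x h1y h2x h2y hD
  have hx : x ∈ O := hpar.pu.mem
  have hy : y ∈ O := hpar.pv.mem
  have hx0 := hpar.u0
  have hy0 := hpar.v0
  -- elements at O
  have m1 : x • D1 ∈ Th O (uo O x) := th_one.2 ⟨fun a ha => by
    simp only [Derivation.smul_apply, smul_eq_mul]
    exact O.mul_mem hx (hD1 a ha), 1, O.one_mem, by
    simp only [Derivation.smul_apply, smul_eq_mul, h1x]; ring⟩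
  have m1' : x • D1 ∈ Th O (uo O y) := th_one.2 ⟨m1.1, 0, O.zero_mem, by
    simp only [Derivation.smul_apply, smul_eq_mul, h1y]; ring⟩
  have m2 : D2 ∈ Th O (uo O x) := th_one.2 ⟨hD2, 0, O.zero_mem, by rw [h2x]; ring⟩
  have m3 : y • D2 ∈ Th O (uo O x) := th_one.2 ⟨fun a ha => by
    simp only [Derivation.smul_apply, smul_eq_mul]
    exact O.mul_mem hy (hD2 a ha), 0, O.zero_mem, by
    simp only [Derivation.smul_apply, smul_eq_mul, h2x]; ring⟩
  have m3' : y • D2 ∈ Th O (uo O y) := th_one.2 ⟨m3.1, 1, O.one_mem, by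
    simp only [Derivation.smul_apply, smul_eq_mul, h2y]; ring⟩
  have part3 : ∀ O' : Subalgebra k E, Quad O x O' → ∀ θ, θ ∈ Th O' (uo O' x) ↔
      ∃ α ∈ O', ∃ β ∈ O', θ = α • (x • D1 + y • D2) + β • (x • D2) := by
    intro O' hQ θ
    have hxi : ∀ D : Derivation k E E, D x⁻¹ = -(x⁻¹ ^ 2) * D x := fun D => by
      rw [Derivation.leibniz_inv, smul_eq_mul]
    constructor
    · intro hθ
      obtain ⟨h1, α, hα, h2⟩ := th_one.1 hθ
      have hyx : y * x⁻¹ ∈ O' := hQ.div y hpar.pv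
      refine ⟨α, hα, θ (y * x⁻¹), h1 _ hyx, ?_⟩
      have h3 : θ y = α * y + θ (y * x⁻¹) * x := by
        have h4 : θ (x * (y * x⁻¹)) = x • θ (y * x⁻¹) + (y * x⁻¹) • θ x := Derivation.leibniz _ _ _
        have h5 : x * (y * x⁻¹) = y := by field_simp
        rw [h5, h2, smul_eq_mul, smul_eq_mul] at h4
        rw [h4]
        field_simp
        ring
      conv_lhs => rw [hD θ]
      rw [h2, h3]
      simp only [add_smul, smul_add, mul_smul]
      abel
    · rintro ⟨α, hα, β, hβ, rfl⟩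
      refine th_comb hα hβ (th_one.2 ⟨?_, 1, O'.one_mem, ?_⟩) (th_one.2 ⟨?_, 0, O'.zero_mem, ?_⟩)
      · refine pres hQ _ (fun a ha => ?_) (fun z hz => ?_)
        · simp only [Derivation.add_apply, Derivation.smul_apply, smul_eq_mul]
          exact hQ.le (O.add_mem (O.mul_mem hx (hD1 a ha)) (O.mul_mem hy (hD2 a ha)))
        · have h3 : (x • D1 + y • D2) (z * x⁻¹) = D1 z + (y * x⁻¹) * D2 z - z * x⁻¹ := by
            simp only [Derivation.add_apply, Derivation.smul_apply, smul_eq_mul, Derivation.leibniz,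
              hxi, h1x, h2x]
            field_simp
            ring
          rw [h3]
          exact O'.sub_mem (O'.add_mem (hQ.le (hD1 z hz.mem)) (O'.mul_mem (hQ.div y hpar.pv)
            (hQ.le (hD2 z hz.mem)))) (hQ.div z hz)
      · simp only [Derivation.add_apply, Derivation.smul_apply, smul_eq_mul, h1x, h2x]
        ring
      · refine pres hQ _ (fun a ha => ?_) (fun z hz => ?_)
        · simp only [Derivation.smul_apply, smul_eq_mul]
          exact hQ.le (O.mul_mem hx (hD2 a ha))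
        · have h3 : (x • D2) (z * x⁻¹) = D2 z := by
            simp only [Derivation.smul_apply, smul_eq_mul, Derivation.leibniz, hxi, h2x]
            field_simp
            ring
          rw [h3]
          exact hQ.le (hD2 z hz.mem)
      · simp only [Derivation.smul_apply, smul_eq_mul, h2x]
        ring
  refine ⟨fun θ => ⟨fun hθ => ?_, ?_⟩, fun θ => ⟨fun hθ => ?_, ?_⟩, fun O' _ => ⟨part3 O', ?_, ?_⟩⟩
  · obtain ⟨h1, α, hα, h2⟩ := th_one.1 hθ
    refine ⟨α, hα, θ y, h1 y hy, ?_⟩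
    conv_lhs => rw [hD θ]
    rw [h2, mul_smul]
  · rintro ⟨α, hα, β, hβ, rfl⟩
    exact th_comb hα hβ m1 m2
  · obtain ⟨h1, h2⟩ := th_union.1 hθ
    obtain ⟨-, α, hα, h3⟩ := th_one.1 h1
    obtain ⟨-, β, hβ, h4⟩ := th_one.1 h2
    refine ⟨α, hα, β, hβ, ?_⟩
    conv_lhs => rw [hD θ]
    rw [h3, h4, mul_smul, mul_smul]
  · rintro ⟨α, hα, β, hβ, rfl⟩
    exact th_union.2 ⟨th_comb hα hβ m1 m3, th_comb hα hβ m1' m3'⟩
  · intro hQ θ
    have hyi : ∀ D : Derivation k E E, D y⁻¹ = -(y⁻¹ ^ 2) * D y := fun D => by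
      rw [Derivation.leibniz_inv, smul_eq_mul]
    constructor
    · intro hθ
      obtain ⟨h1, h2⟩ := th_union.1 hθ
      obtain ⟨-, β, hβ, h3⟩ := th_one.1 h1
      obtain ⟨-, c, hc, h4⟩ := th_one.1 h2
      refine ⟨c + β, O'.add_mem hc hβ, β, hβ, ?_⟩
      have h5 : θ x = (c + β) * x := by
        have h6 : θ (y * (x / y)) = y • θ (x / y) + (x / y) • θ y := Derivation.leibniz _ _ _
        have h7 : y * (x / y) = x := by field_simp
        rw [h7, h3, h4, smul_eq_mul, smul_eq_mul] at h6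
        rw [h6]
        field_simp
      conv_lhs => rw [hD θ]
      rw [h5, h3, mul_smul, mul_smul]
    · rintro ⟨α, hα, β, hβ, rfl⟩
      have p1 : ∀ a ∈ O', (x • D1) a ∈ O' := by
        refine pres hQ _ (fun a ha => hQ.le (m1.1 a ha)) (fun z hz => ?_)
        have h3 : (x • D1) (z * y⁻¹) = (x * y⁻¹) * D1 z := by
          simp only [Derivation.smul_apply, smul_eq_mul, Derivation.leibniz, hyi, h1y]
          field_simp
          ring
        rw [h3]
        exact O'.mul_mem (hQ.div x hpar.pu) (hQ.le (hD1 z hz.mem))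
      have p2 : ∀ a ∈ O', (y • D2) a ∈ O' := by
        refine pres hQ _ (fun a ha => hQ.le (m3.1 a ha)) (fun z hz => ?_)
        have h3 : (y • D2) (z * y⁻¹) = D2 z - z * y⁻¹ := by
          simp only [Derivation.smul_apply, smul_eq_mul, Derivation.leibniz, hyi, h2y]
          field_simp
          ring
        rw [h3]
        exact O'.sub_mem (hQ.le (hD2 z hz.mem)) (hQ.div z hz)
      refine th_union.2 ⟨th_comb hα hβ (th_one.2 ⟨p1, 0, O'.zero_mem, ?_⟩)
        (th_one.2 ⟨p2, 1, O'.one_mem, ?_⟩), th_comb hα hβ (th_one.2 ⟨p1, 1, O'.one_mem, ?_⟩)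
        (th_one.2 ⟨p2, -1, O'.neg_mem O'.one_mem, ?_⟩)⟩
      · simp only [Derivation.smul_apply, smul_eq_mul, h1y]
        ring
      · simp only [Derivation.smul_apply, smul_eq_mul, h2y]
        ring
      · rw [div_eq_mul_inv]
        simp only [Derivation.smul_apply, smul_eq_mul, Derivation.leibniz, hyi, h1y, h1x]
        ring
      · rw [div_eq_mul_inv]
        simp only [Derivation.smul_apply, smul_eq_mul, Derivation.leibniz, hyi, h2y, h2x]
        field_simp
        ring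
  · intro hQ hi θ
    have hyx : y * x⁻¹ ∈ O' := hQ.div y hpar.pv
    rw [part3 O' hQ θ]
    have e1 : x • D2 = (y / x)⁻¹ • (y • D2) := by
      rw [← mul_smul]
      congr 1
      field_simp
    have e2 : y • D2 = (y * x⁻¹) • (x • D2) := by
      rw [← mul_smul]
      congr 1
      field_simp
    constructor
    · rintro ⟨α, hα, β, hβ, rfl⟩
      refine ⟨α, hα, α + β * (y / x)⁻¹, O'.add_mem hα (O'.mul_mem hβ hi), ?_⟩
      rw [add_smul, mul_smul β, ← e1, smul_add, add_assoc]
    · rintro ⟨α, hα, β, hβ, rfl⟩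
      refine ⟨α, hα, (β - α) * (y * x⁻¹), O'.mul_mem (O'.sub_mem hβ hα) hyx, ?_⟩
      rw [mul_smul (β - α), ← e2, sub_smul, smul_add]
      abel

end Pool.Agent.W337.WD
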